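import Pool.Agent.Helper79.GU.St1
import Pool.Agent.Helper79.GS.St4

/-!
# Project GU, module PSE: the languages of the decisive placements are in PSPACE
-/

set_option autoImplicit false

namespace Pool.Agent.Helper47.GU

open Pool.Agent.Helper19.SK Pool.Agent.Helper73.DC Pool.Agent.Helper79.GS Pool.Agent.Helper79.GT
  Pool.Agent.Helper79.GU Finset
open scoped Classical

private theorem b01_ne (p : Prop) : b01 p ≠ 0 ↔ p := by
  unfold b01
  by_cases h : p <;> simp [h]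

private theorem b01_le (p : Prop) : b01 p ≤ 1 := by
  unfold b01
  split_ifs <;> omega

private theorem sum_lt (c : ℕ → ℕ) (hc : ∀ p, c p ≤ 2) (K : ℕ) :
    ∑ p ∈ range K, c p * 3 ^ p < 3 ^ K := by
  induction K with
  | zero => simp
  | succ K ih =>
    rw [sum_range_succ, pow_succ]
    have h := Nat.mul_le_mul_right (3 ^ K) (hc K)
    omega

private theorem ct_le (w : List (Fin 5)) (p : ℕ) : ctE w p ≤ 2 := by
  unfold ctE
  split_ifs <;> omega

private theorem c_le (w : List (Fin 5)) : cE w ≤ 1 := by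
  unfold cE
  split_ifs <;> omega

private theorem b_lt (hFLE : StFLE) (w : List (Fin 5)) :
    bE (NN 8 w) w < 3 ^ (nV w * nV w) := by
  obtain ⟨-, -, h3, -⟩ := hFLE w
  have e : bE (NN 8 w) w = ∑ p ∈ range (nV w * nV w), ctE w p * 3 ^ p := by
    unfold bE
    refine sum_congr rfl fun p hp => ?_
    rw [h3 p (mem_range.1 hp).le]
  rw [e]
  exact sum_lt _ (fun p => ct_le w p) _

private theorem ini_le (N : ℕ) (w : List (Fin 5)) (z : ℕ) : iniE N w z ≤ 1 := by
  unfold iniE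
  split_ifs
  · exact b01_le _
  · omega
  · omega
  · omega

private theorem len_le (N : ℕ) (w : List (Fin 5)) (z : ℕ) : lenE N w z ≤ 2 * NbE N w + 1 := by
  unfold lenE
  split_ifs <;> omega

private theorem stp_le (N : ℕ) (w : List (Fin 5)) (z j a y : ℕ) : stpE N w z j a y ≤ 3 := by
  unfold stpE
  have h1 : a % 2 ≤ 1 := by omega
  have h2 := b01_le (y ≠ 0)
  split_ifs
  · omega
  · exact (b01_le _).trans (by norm_num)
  · exact (b01_le _).trans (by norm_num)
  · exact (b01_le _).trans (by norm_num)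
  · exact (b01_le _).trans (by norm_num)
  · omega

private theorem core (hFLE : StFLE) (hAR1 : StAR1) (hAR2 : StAR2) (w : List (Fin 5)) (z : ℕ)
    (hz : OkE w z) :
    z < NN 8 w ∧ rkE w z < (w.length + 2) ^ 8 ∧ iniE (NN 8 w) w z < NN 8 w ∧
    lenE (NN 8 w) w z < NN 8 w ∧
    (∀ j < lenE (NN 8 w) w z, ∀ a < NN 8 w, OkE w (delE (NN 8 w) w z j) ∧
      rkE w (delE (NN 8 w) w z j) < rkE w z ∧ ∀ x < NN 8 w, stpE (NN 8 w) w z j a x < NN 8 w) ∧
    (∀ a < NN 8 w, a % 2 < NN 8 w) ∧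
    valE w z = (Nat.rec (iniE (NN 8 w) w z)
      (fun j a => stpE (NN 8 w) w z j a (valE w (delE (NN 8 w) w z j)))
      (lenE (NN 8 w) w z) : ℕ) % 2 := by
  obtain ⟨T, k, u, v, c, hok, rfl⟩ := hz
  obtain ⟨h1, h2, -, h4, h5, hf⟩ := hFLE w
  obtain ⟨f0, f1, f2, f3, f4, f5⟩ := hf T k u v c hok
  have harg : ArgE w (zE (NN 8 w) w T k u v c) := by
    rcases Nat.lt_or_ge T 2 with hT | hT
    · have hT1 : T = 1 := by
        have := hok.1
        omega
      subst hT1
      exact hAR1 w k u v c hok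
    · exact hAR2 w T k u v c hT hok
  obtain ⟨a1, a2⟩ := harg
  refine ⟨f5, ?_, ?_, ?_, ?_, ?_, a2⟩
  · unfold rkE
    rw [f0, f1]
    have hk := hok.2.2.1
    split_ifs <;> omega
  · have := ini_le (NN 8 w) w (zE (NN 8 w) w T k u v c)
    omega
  · have := len_le (NN 8 w) w (zE (NN 8 w) w T k u v c)
    rw [h1] at this
    omega
  · intro j hj a _
    obtain ⟨o1, o2⟩ := a1 j hj
    refine ⟨o1, o2, fun x _ => ?_⟩
    have := stp_le (NN 8 w) w (zE (NN 8 w) w T k u v c) j a x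
    omega
  · intro a _
    omega

theorem hPSE (hREC : StREC) (hEVE : StEVE) (hFLE : StFLE) (hAR1 : StAR1) (hAR2 : StAR2) :
    StPSE := by
  obtain ⟨hc, hb, hzE, hil, hdel, hstp⟩ := hEVE
  have hcore := core hFLE hAR1 hAR2
  have eini : E2 (α := Fin 5) (fun w v => iniE (v 1) w (v 0)) :=
    (hil (fun _ v => v 1) (fun _ v => v 0) (e_get 1) (e_get 0)).1
  have elen : E2 (α := Fin 5) (fun w v => lenE (v 1) w (v 0)) :=
    (hil (fun _ v => v 1) (fun _ v => v 0) (e_get 1) (e_get 0)).2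
  have edel : E2 (α := Fin 5) (fun w v => delE (v 3) w (v 0) (v 1)) :=
    hdel (fun _ v => v 3) (fun _ v => v 0) (fun _ v => v 1) (e_get 3) (e_get 0) (e_get 1)
  have estp : E2 (α := Fin 5) (fun w v => stpE (v 4) w (v 0) (v 1) (v 2) (v 3)) :=
    hstp (fun _ v => v 4) (fun _ v => v 0) (fun _ v => v 1) (fun _ v => v 2) (fun _ v => v 3)
      (e_get 4) (e_get 0) (e_get 1) (e_get 2) (e_get 3)
  have eout : E2 (α := Fin 5) (fun _ v => v 1 % 2) := e_mod (e_get 1) (e_con 2)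
  have ebb : E2 (α := Fin 5) (fun w v => bE (v 0) w) := hb (fun _ v => v 0) (e_get 0)
  intro i
  cases i with
  | true =>
    refine hREC (Fin 5) (fun w v => iniE (v 1) w (v 0)) (fun w v => lenE (v 1) w (v 0))
      (fun w v => delE (v 3) w (v 0) (v 1)) (fun w v => stpE (v 4) w (v 0) (v 1) (v 2) (v 3))
      (fun _ v => v 1 % 2) (fun w v => zE (v 0) w 2 0 (bE (v 0) w) 0 (cE w)) 8 (DE true) OkE valE
      rkE eini elen edel estp eout ?_ (fun w z hz => hcore w z hz) ?_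
    · exact hzE (fun _ v => v 0) (fun _ _ => 2) (fun _ _ => 0) (fun w v => bE (v 0) w)
        (fun _ _ => 0) (fun w _ => cE w) (e_get 0) (e_con 2) (e_con 0) ebb (e_con 0) hc
    · intro w
      have hok : OkFE w 2 0 (bE (NN 8 w) w) 0 (cE w) :=
        ⟨by norm_num, by norm_num, Nat.zero_le _, b_lt hFLE w, by positivity, c_le w⟩
      refine ⟨⟨2, 0, bE (NN 8 w) w, 0, cE w, hok, rfl⟩, ?_⟩
      obtain ⟨-, -, -, -, -, hf⟩ := hFLE w
      obtain ⟨f0, f1, f2, f3, f4, f5⟩ := hf _ _ _ _ _ hok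
      change valE w (zE (NN 8 w) w 2 0 (bE (NN 8 w) w) 0 (cE w)) ≠ 0 ↔ w ∈ DE true
      unfold valE
      rw [f0, f2, f4, if_neg (by norm_num), if_pos rfl, b01_ne]
      simp [DE]
  | false =>
    refine hREC (Fin 5) (fun w v => iniE (v 1) w (v 0)) (fun w v => lenE (v 1) w (v 0))
      (fun w v => delE (v 3) w (v 0) (v 1)) (fun w v => stpE (v 4) w (v 0) (v 1) (v 2) (v 3))
      (fun _ v => v 1 % 2) (fun w v => zE (v 0) w 3 0 (bE (v 0) w) 0 (1 - cE w)) 8 (DE false) OkE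
      valE rkE eini elen edel estp eout ?_ (fun w z hz => hcore w z hz) ?_
    · exact hzE (fun _ v => v 0) (fun _ _ => 3) (fun _ _ => 0) (fun w v => bE (v 0) w)
        (fun _ _ => 0) (fun w _ => 1 - cE w) (e_get 0) (e_con 3) (e_con 0) ebb (e_con 0)
        (e_sub (e_con 1) hc)
    · intro w
      have hok : OkFE w 3 0 (bE (NN 8 w) w) 0 (1 - cE w) :=
        ⟨by norm_num, by norm_num, Nat.zero_le _, b_lt hFLE w, by positivity, Nat.sub_le _ _⟩
      refine ⟨⟨3, 0, bE (NN 8 w) w, 0, 1 - cE w, hok, rfl⟩, ?_⟩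
      obtain ⟨-, -, -, -, -, hf⟩ := hFLE w
      obtain ⟨f0, f1, f2, f3, f4, f5⟩ := hf _ _ _ _ _ hok
      change valE w (zE (NN 8 w) w 3 0 (bE (NN 8 w) w) 0 (1 - cE w)) ≠ 0 ↔ w ∈ DE false
      unfold valE
      rw [f0, f2, f4, if_neg (by norm_num), if_neg (by norm_num), if_pos rfl, b01_ne]
      simp [DE]

end Pool.Agent.Helper47.GU
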